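import Pool.Agent.H83.RC.Targets
import Pool.Agent.H19.QP.SFO

/-!
Row SFOC (MP_c59857_nt): relations between the multiples of the primes of one octave, class of mu.
-/

set_option autoImplicit false

namespace Pool.Agent.H6.RC

open Finset Pool.Agent.H18.MR Pool.Agent.H93.DE Pool.Agent.H6.N4D Pool.Agent.H93
  Pool.Agent.H93.ES Pool.Agent.H28.NW Pool.Agent.H87.QP Pool.Agent.H83.LI Pool.Agent.H78.RC
  Pool.Agent.H83.RC

lemma pc_nonneg (f : ℕ → ℂ) (H L q n : ℕ) : 0 ≤ pc f H L q n := by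
  unfold pc
  refine Real.iInf_nonneg fun c => ?_
  unfold FC
  exact div_nonneg (sum_nonneg fun _ _ => sq_nonneg _) (Nat.cast_nonneg _)

theorem pf_SFOC (hS : T_SF1C) : T_SFOC := by
  intro H D m₀ c hc
  obtain ⟨Ls, W₁, X₀, hLs, h⟩ := hS H D (400 * (m₀ + 2)) c hc
  refine ⟨Ls, W₁, X₀, hLs, fun X f hX hl hps => ?_⟩
  obtain ⟨w, hw0, hw1, hw⟩ := h X f hX hl hps
  have hL0 := X.L_nonneg
  have h1 : ∑ m ∈ Ico (w / 400) (w / 200), ∑ q ∈ oct m,
      1 / (q : ℝ) * wlg X (fun n => pc f H (2 ^ w) q n) ≤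
      ∑ m ∈ Ico (w / 400) (w / 200), 2 * c * (∑ q ∈ oct m, 1 / (q : ℝ)) * X.L := by
    rw [← Pool.Agent.H19.QP.sum_QQ w (fun q => 1 / (q : ℝ) * wlg X (fun n => pc f H (2 ^ w) q n)),
      ← sum_mul, ← mul_sum, ← Pool.Agent.H19.QP.sum_QQ w (fun q => 1 / (q : ℝ))]
    exact hw
  have hne : (Ico (w / 400) (w / 200)).Nonempty := by
    rw [nonempty_Ico]
    omega
  obtain ⟨m, hm, h2⟩ := exists_le_of_sum_le hne h1
  rw [mem_Ico] at hm
  refine ⟨m, w, by omega, by omega, hw1, ?_⟩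
  have h3 : (1 / (2 : ℝ) ^ (m + 1)) * ∑ q ∈ oct m, wlg X (fun n => pc f H (2 ^ w) q n) ≤
      ∑ q ∈ oct m, 1 / (q : ℝ) * wlg X (fun n => pc f H (2 ^ w) q n) := by
    rw [mul_sum]
    refine sum_le_sum fun q hq => ?_
    unfold oct at hq
    rw [mem_filter, mem_Ioc] at hq
    have hq0 : (0 : ℝ) < q := by exact_mod_cast hq.2.pos
    refine mul_le_mul_of_nonneg_right ?_ (wlg_nonneg fun n _ => pc_nonneg _ _ _ _ _)
    apply one_div_le_one_div_of_le hq0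
    exact_mod_cast hq.1.2
  have h4 : ∑ q ∈ oct m, 1 / (q : ℝ) ≤ ((oct m).card : ℝ) * (1 / (2 : ℝ) ^ m) := by
    rw [← nsmul_eq_mul]
    refine sum_le_card_nsmul _ _ _ fun q hq => ?_
    unfold oct at hq
    rw [mem_filter, mem_Ioc] at hq
    apply one_div_le_one_div_of_le (by positivity)
    exact_mod_cast hq.1.1.le
  have h5 : 2 * c * (∑ q ∈ oct m, 1 / (q : ℝ)) * X.L ≤
      2 * c * (((oct m).card : ℝ) * (1 / (2 : ℝ) ^ m)) * X.L := by
    refine mul_le_mul_of_nonneg_right ?_ hL0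
    exact mul_le_mul_of_nonneg_left h4 (by positivity)
  have h6 : (1 / (2 : ℝ) ^ (m + 1)) * ∑ q ∈ oct m, wlg X (fun n => pc f H (2 ^ w) q n) ≤
      (1 / (2 : ℝ) ^ (m + 1)) * (4 * c * (oct m).card * X.L) := by
    refine (h3.trans (h2.trans h5)).trans (le_of_eq ?_)
    rw [pow_succ]
    field_simp
    ring
  exact le_of_mul_le_mul_left h6 (by positivity)

end Pool.Agent.H6.RC
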