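import Pool.Agent.H70.RC.Targets2

/-!
# SIX: a random choice among several algorithms, with relabelled queries

Algorithms with fewer queries are padded with queries after which the identity is applied: this only
changes the phases of the final state.
-/

set_option autoImplicit false

namespace Pool.Agent.H6.RC

open Finset Pool.Agent.H6.NB Pool.Agent.H70.RC
open scoped Matrix

theorem bdiag_mulVec {M : ℕ} (B : Fin M → Type) [∀ i, Fintype (B i)] [∀ i, DecidableEq (B i)]
    (U : ∀ i, Matrix (B i) (B i) ℂ) (v : (Σ i, B i) → ℂ) (i : Fin M) (b : B i) :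
    (Matrix.blockDiagonal' U *ᵥ v) ⟨i, b⟩ = (U i *ᵥ fun b' => v ⟨i, b'⟩) b := by
  simp only [Matrix.mulVec, dotProduct]
  rw [Fintype.sum_sigma, Finset.sum_eq_single i]
  · refine Finset.sum_congr rfl fun y _ => ?_
    rw [Matrix.blockDiagonal'_apply_eq]
  · intro j _ hj
    refine Finset.sum_eq_zero fun y _ => ?_
    rw [Matrix.blockDiagonal'_apply_ne _ _ _ hj.symm, zero_mul]
  · simp

theorem bdiag_unitary {M : ℕ} (B : Fin M → Type) [∀ i, Fintype (B i)] [∀ i, DecidableEq (B i)]
    (U : ∀ i, Matrix (B i) (B i) ℂ) (h : ∀ i, U i ∈ Matrix.unitaryGroup (B i) ℂ) :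
    Matrix.blockDiagonal' U ∈ Matrix.unitaryGroup (Σ i, B i) ℂ := by
  rw [Matrix.mem_unitaryGroup_iff, Matrix.star_eq_conjTranspose, Matrix.blockDiagonal'_conjTranspose,
    ← Matrix.blockDiagonal'_mul]
  have h1 : (fun k => U k * (U k)ᴴ) = 1 := by
    funext i
    have := h i
    rw [Matrix.mem_unitaryGroup_iff, Matrix.star_eq_conjTranspose] at this
    exact this
  rw [h1, Matrix.blockDiagonal'_one]

/-- Choose `i` at random and run `A i` with the queries relabelled by `ρ i`; `m` queries. -/
noncomputable def six (M m : ℕ) (A : Fin M → QAlg) (ρ : Fin M → List Bool → List Bool)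
    (hM : 1 ≤ M) : QAlg where
  basis := Σ i : Fin M, (A i).basis
  query := fun x => ((A x.1).query x.2).map (ρ x.1)
  T := m
  U := fun t => Matrix.blockDiagonal' fun i => if t ≤ (A i).T then (A i).U t else 1
  unitary := by
    intro t
    apply bdiag_unitary
    intro i
    by_cases h : t ≤ (A i).T
    · rw [if_pos h]
      exact (A i).unitary t
    · rw [if_neg h]
      exact one_mem _
  init := fun x => ((1 / √M : ℝ) : ℂ) * (A x.1).init x.2
  norm_init := by
    have h0 : (0 : ℝ) < M := by exact_mod_cast hM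
    rw [Fintype.sum_sigma]
    have h1 : ∀ i : Fin M, ∑ y : (A i).basis, ‖((1 / √M : ℝ) : ℂ) * (A i).init y‖ ^ 2 = 1 / M := by
      intro i
      have h2 : ∀ y : (A i).basis, ‖((1 / √M : ℝ) : ℂ) * (A i).init y‖ ^ 2 =
          1 / M * ‖(A i).init y‖ ^ 2 := by
        intro y
        rw [norm_mul, mul_pow, Complex.norm_real, Real.norm_eq_abs, sq_abs, div_pow, one_pow,
          Real.sq_sqrt h0.le]
      rw [Finset.sum_congr rfl fun y _ => h2 y, ← Finset.mul_sum, (A i).norm_init, mul_one]
    rw [Finset.sum_congr rfl fun i _ => h1 i, Finset.sum_const, Finset.card_univ, nsmul_eq_mul,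
      Fintype.card_fin]
    field_simp
  acc := Finset.univ.sigma fun i => (A i).acc

variable {M m : ℕ} (A : Fin M → QAlg) (ρ : Fin M → List Bool → List Bool) (hM : 1 ≤ M)

theorem six_phase (O : List Bool → Bool) (i : Fin M) (b : (A i).basis) :
    (six M m A ρ hM).phase O ⟨i, b⟩ = (A i).phase (fun w => O (ρ i w)) b := by
  unfold QAlg.phase
  change (match ((A i).query b).map (ρ i) with
    | none => (1 : ℂ)
    | some w => if O w then -1 else 1) = _
  cases (A i).query b <;> rfl

theorem smul_mulVec_apply {B : Type} [Fintype B] (U : Matrix B B ℂ) (v : B → ℂ) (c : ℂ) (b : B) :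
    (U *ᵥ fun b' => c * v b') b = c * (U *ᵥ v) b := by
  simp only [Matrix.mulVec, dotProduct]
  rw [Finset.mul_sum]
  exact Finset.sum_congr rfl fun y _ => by ring

theorem six_state (O : List Bool → Bool) (i : Fin M) (t : ℕ) (ht : t ≤ (A i).T)
    (b : (A i).basis) :
    (six M m A ρ hM).state O t ⟨i, b⟩ =
      ((1 / √M : ℝ) : ℂ) * (A i).state (fun w => O (ρ i w)) t b := by
  induction t generalizing b with
  | zero =>
    change ((Matrix.blockDiagonal' fun i => if 0 ≤ (A i).T then (A i).U 0 else 1) *ᵥ _) ⟨i, b⟩ = _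
    rw [bdiag_mulVec, if_pos (Nat.zero_le _)]
    exact smul_mulVec_apply _ _ _ _
  | succ t ih =>
    change ((Matrix.blockDiagonal' fun i => if t + 1 ≤ (A i).T then (A i).U (t + 1) else 1) *ᵥ _)
      ⟨i, b⟩ = _
    rw [bdiag_mulVec, if_pos ht]
    have h1 : (fun b' : (A i).basis => (six M m A ρ hM).phase O ⟨i, b'⟩ *
        (six M m A ρ hM).state O t ⟨i, b'⟩) =
        fun b' => ((1 / √M : ℝ) : ℂ) * ((A i).phase (fun w => O (ρ i w)) b' *
          (A i).state (fun w => O (ρ i w)) t b') := by
      funext b'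
      rw [ih (by omega) b', six_phase]
      ring
    rw [h1, smul_mulVec_apply]
    rfl

theorem phase_norm (Q : QAlg) (O : List Bool → Bool) (b : Q.basis) : ‖Q.phase O b‖ = 1 := by
  unfold QAlg.phase
  cases Q.query b with
  | none => simp
  | some w =>
    by_cases h : O w <;> simp [h]

theorem six_state_norm (O : List Bool → Bool) (i : Fin M) (s : ℕ) (b : (A i).basis) :
    ‖(six M m A ρ hM).state O ((A i).T + s) ⟨i, b⟩‖ =
      ‖(six M m A ρ hM).state O (A i).T ⟨i, b⟩‖ := by
  induction s with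
  | zero => rfl
  | succ s ih =>
    rw [← ih]
    change ‖((Matrix.blockDiagonal' fun j => if (A i).T + s + 1 ≤ (A j).T then
      (A j).U ((A i).T + s + 1) else 1) *ᵥ _) ⟨i, b⟩‖ = _
    rw [bdiag_mulVec, if_neg (by omega), Matrix.one_mulVec, norm_mul, phase_norm, one_mul]
    rfl

theorem pf_SIX : T_SIX := by
  intro M m A ρ hM hT
  refine ⟨six M m A ρ hM, rfl, ?_, ?_⟩
  · rintro k k' hA hρ ⟨i, b⟩ w hw
    change ((A i).query b).map (ρ i) = some w at hw
    rw [Option.map_eq_some_iff] at hw
    obtain ⟨w', h1, h2⟩ := hw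
    rw [← h2]
    exact hρ i w' (hA i b w' h1)
  · intro O
    have h0 : (0 : ℝ) < M := by exact_mod_cast hM
    unfold QAlg.prob
    change ∑ x ∈ Finset.univ.sigma fun i => (A i).acc, ‖(six M m A ρ hM).state O m x‖ ^ 2 = _
    rw [Finset.sum_sigma, Finset.sum_div]
    refine Finset.sum_congr rfl fun i _ => ?_
    rw [Finset.sum_div]
    refine Finset.sum_congr rfl fun b _ => ?_
    have h1 : m = (A i).T + (m - (A i).T) := by
      have := hT i
      omega
    have h2 : ‖(six M m A ρ hM).state O m ⟨i, b⟩‖ = ‖(six M m A ρ hM).state O (A i).T ⟨i, b⟩‖ := by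
      have h3 := six_state_norm (m := m) A ρ hM O i (m - (A i).T) b
      rw [← h1] at h3
      exact h3
    rw [h2, six_state A ρ hM O i (A i).T le_rfl b, norm_mul, mul_pow, Complex.norm_real,
      Real.norm_eq_abs, sq_abs, div_pow, one_pow, Real.sq_sqrt h0.le]
    ring

end Pool.Agent.H6.RC
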